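import Mathlib
import Pool.Agent.Helper669.SetMap2

/-!
# One Cohen real: set mappings without uncountable free sets

The mappings of `Pool.Agent.Helper669.SetMap` use `ℵ₁` Cohen reals. Here one Cohen real is used:
the value at `{a, b}`, `a < b < ω₁`, is the element of `b` whose number is `r (e_b a)`, where `r` is
the Cohen real and `e_b` a ground model injection of `b` into `ω`.
-/

set_option autoImplicit false

namespace Pool.Agent.Y767.SM

open Cardinal Pool.Agent.Helper669.Forcing Pool.Agent.Helper669.SetMap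
  Pool.Agent.Helper669.SetMap2

/-! ### Parts of conditions -/

section

variable {I J : Type} (j : J → I)

/-- the part of a condition on `J` -/
def res (hj : Function.Injective j) (p : Fn I) : Fn J :=
  ⟨fun x => p.1 (j x), p.2.preimage hj.injOn⟩

theorem res_mono (hj : Function.Injective j) {p q : Fn I} (h : q ≤ p) :
    res j hj q ≤ res j hj p := fun x n hn => h (j x) n hn

open Classical in
/-- replace the part of `p` on `J` by `q` -/
noncomputable def put (p : Fn I) (q : Fn J) : Fn I :=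
  ⟨fun i => if h : ∃ x, j x = i then q.1 h.choose else p.1 i,
    ((q.2.image j).union p.2).subset fun i hi => by
      by_cases h : ∃ x, j x = i
      · left
        refine ⟨h.choose, ?_, h.choose_spec⟩
        simpa only [Set.mem_ofPred_eq, h, dif_pos] using hi
      · right
        simpa only [Set.mem_ofPred_eq, h, dif_neg, not_false_eq_true] using hi⟩

open Classical in
/-- `put j p q ≤ s` if `p ≤ s` and `q` extends the part of `s` on `J` -/
theorem put_le (hj : Function.Injective j) {p s : Fn I} {q : Fn J} (hp : p ≤ s)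
    (h : q ≤ res j hj s) : put j p q ≤ s := by
  intro i n hn
  show (if h : ∃ x, j x = i then q.1 h.choose else p.1 i) = some n
  by_cases hx : ∃ x, j x = i
  · rw [dif_pos hx]
    apply h
    show s.1 (j hx.choose) = some n
    rw [hx.choose_spec]
    exact hn
  · rw [dif_neg hx]
    exact hp i n hn

open Classical in
theorem res_put (hj : Function.Injective j) (p : Fn I) (q : Fn J) :
    res j hj (put j p q) = q := by
  apply Subtype.ext
  funext x
  show (if h : ∃ y, j y = j x then q.1 h.choose else p.1 (j x)) = q.1 x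
  have hx : ∃ y, j y = j x := ⟨x, rfl⟩
  rw [dif_pos hx, hj hx.choose_spec]

/-- the mapping as a mapping in the larger extension -/
def up (hj : Function.Injective j) {K : Type} (M : Finset K → K → Set (Fn J)) (Y : Finset K)
    (x : K) : Set (Fn I) := {q | res j hj q ∈ M Y x}

theorem one_up (hj : Function.Injective j) {K : Type} {M : Finset K → K → Set (Fn J)}
    (h : One M) : One (up j hj M) :=
  fun Y x x' _ _ _ hq hq' hM hM' =>
    h Y x x' _ _ _ (res_mono j hj hq) (res_mono j hj hq') hM hM'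

end

/-! ### Robust mappings: large finite sets and a fixed condition -/

/-- for every condition, no large finite set is free -/
def Rob1 {I K : Type} (r : ℕ) (M : Finset K → K → Set (Fn I)) : Prop :=
  ∀ m : ℕ, ∃ N : ℕ, 1 ≤ N ∧ ∀ S : Finset K, S.card = N → ∀ p : Fn I, sz p ≤ m →
    ∃ Y ⊆ S, Y.card = r ∧ ∃ x ∈ S, x ∉ Y ∧ ∃ q ≤ p, q ∈ M Y x

/-- transfer along an injection -/
theorem transfer {I K K' : Type} {r : ℕ} (e : K' ↪ K) {M : Finset K → K → Set (Fn I)}
    (h : One M) (h' : Rob1 r M) : ∃ M' : Finset K' → K' → Set (Fn I), One M' ∧ Rob1 r M' := by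
  classical
  refine ⟨fun Y x => M (Y.map e) (e x), ?_, ?_⟩
  · intro Y x x' q q' t hq hq' hM hM'
    exact e.injective (h _ _ _ q q' t hq hq' hM hM')
  · intro m
    obtain ⟨N, hN, hrob⟩ := h' m
    refine ⟨N, hN, fun S hS p hp => ?_⟩
    obtain ⟨Y, hY, hYc, x, hx, hxY, q, hq, hqM⟩ := hrob (S.map e) (by
      rw [Finset.card_map]; exact hS) p hp
    obtain ⟨v, hv, rfl⟩ := Finset.mem_map.1 hx
    have hYe : (S.filter fun y => e y ∈ Y).map e = Y := by
      ext w
      constructor
      · intro hw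
        obtain ⟨y, hy, rfl⟩ := Finset.mem_map.1 hw
        exact (Finset.mem_filter.1 hy).2
      · intro hw
        obtain ⟨y, hy, rfl⟩ := Finset.mem_map.1 (hY hw)
        exact Finset.mem_map.2 ⟨y, Finset.mem_filter.2 ⟨hy, hw⟩, rfl⟩
    refine ⟨S.filter fun y => e y ∈ Y, Finset.filter_subset _ _, ?_, v, hv, ?_, q, hq, ?_⟩
    · rw [← hYc, ← hYe, Finset.card_map, hYe]
    · intro hv'
      exact hxY (Finset.mem_filter.1 hv').2
    · show q ∈ M ((S.filter fun y => e y ∈ Y).map e) (e v)
      rw [hYe]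
      exact hqM

/-- the stepping-up lemma -/
theorem rob1_Mstep {I K K' : Type} [LinearOrder K] {g : K → K → K'}
    (hg : ∀ z, Set.InjOn (g z) (Set.Iio z))
    {M' : Finset K' → K' → Set (Fn I)} {r : ℕ} (h : Rob1 r M') : Rob1 (r + 1) (Mstep g M') := by
  classical
  intro m
  obtain ⟨N, hN, hrob⟩ := h m
  refine ⟨N + 1, by omega, fun S hS p hp => ?_⟩
  have hne : S.Nonempty := Finset.card_pos.1 (by omega)
  set z := S.max' hne with hz
  have hzS : z ∈ S := Finset.max'_mem S hne
  have hlt : ∀ y ∈ S.erase z, y < z := by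
    intro y hy
    exact lt_of_le_of_ne (Finset.le_max' S y (Finset.mem_of_mem_erase hy))
      (Finset.ne_of_mem_erase hy)
  have hinj : Set.InjOn (g z) ↑(S.erase z) := (hg z).mono fun y hy => hlt y hy
  have hcard : ((S.erase z).image (g z)).card = N := by
    rw [Finset.card_image_of_injOn hinj, Finset.card_erase_of_mem hzS, hS]; omega
  obtain ⟨Y', hY', hYc, x', hx', hxY', q, hq, hqM⟩ := hrob _ hcard p hp
  obtain ⟨x, hxS, rfl⟩ := Finset.mem_image.1 hx'
  let Y0 := (S.erase z).filter fun y => g z y ∈ Y'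
  have hY0 : Y0.image (g z) = Y' := by
    ext w
    constructor
    · intro hw
      obtain ⟨y, hy, rfl⟩ := Finset.mem_image.1 hw
      exact (Finset.mem_filter.1 hy).2
    · intro hw
      obtain ⟨y, hy, rfl⟩ := Finset.mem_image.1 (hY' hw)
      exact Finset.mem_image.2 ⟨y, Finset.mem_filter.2 ⟨hy, hw⟩, rfl⟩
  have hY0S : Y0 ⊆ S.erase z := Finset.filter_subset _ _
  have hzY0 : z ∉ Y0 := fun h => (Finset.mem_erase.1 (hY0S h)).1 rfl
  refine ⟨insert z Y0, ?_, ?_, x, Finset.mem_of_mem_erase hxS, ?_, q, hq,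
    ⟨z, Finset.mem_insert_self _ _, ?_, hlt x hxS, ?_⟩⟩
  · intro y hy
    rcases Finset.mem_insert.1 hy with rfl | hy
    · exact hzS
    · exact Finset.mem_of_mem_erase (hY0S hy)
  · rw [Finset.card_insert_of_notMem hzY0, ← hYc, ← hY0,
      Finset.card_image_of_injOn (hinj.mono hY0S)]
  · intro hx
    rcases Finset.mem_insert.1 hx with h1 | h1
    · exact (Finset.mem_erase.1 hxS).1 h1
    · exact hxY' (Finset.mem_filter.1 h1).2
  · intro y hy
    rcases Finset.mem_insert.1 hy with rfl | hy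
    · exact le_rfl
    · exact (hlt y (hY0S hy)).le
  · rw [Finset.erase_insert hzY0, hY0]
    exact hqM

/-! ### Pairs of countable ordinals -/

/-- the mapping on pairs: the value at `{a, b}`, `a < b`, is the element number `r (e_b a)` -/
def M1 {K : Type} [LinearOrder K] (e : K → K → ℕ) (ε : K → ℕ → K) (Y : Finset K) (x : K) :
    Set (Fn ℕ) :=
  {q | ∃ a b k, a < b ∧ Y = {a, b} ∧ q.1 (e b a) = some k ∧ ε b k = x}

theorem one_M1 {K : Type} [LinearOrder K] (e : K → K → ℕ) (ε : K → ℕ → K) : One (M1 e ε) := by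
  rintro Y x x' q q' r hq hq' ⟨a, b, k, hab, hY, hk, hx⟩ ⟨a', b', k', hab', hY', hk', hx'⟩
  have h1 : a = a' ∧ b = b' := by
    have h2 : ({a, b} : Finset K) = {a', b'} := hY.symm.trans hY'
    have ha : a ∈ ({a', b'} : Finset K) := h2 ▸ (by simp)
    have hb : b ∈ ({a', b'} : Finset K) := h2 ▸ (by simp)
    have ha' : a' ∈ ({a, b} : Finset K) := h2 ▸ (by simp)
    simp only [Finset.mem_insert, Finset.mem_singleton] at ha hb ha'
    rcases ha with rfl | rfl
    · rcases hb with rfl | rfl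
      · exact absurd hab (lt_irrefl _)
      · exact ⟨rfl, rfl⟩
    · rcases hb with rfl | rfl
      · exact absurd (hab.trans hab') (lt_irrefl _)
      · exact absurd hab (lt_irrefl _)
  obtain ⟨rfl, rfl⟩ := h1
  have h3 := hq _ _ hk
  have h4 := hq' _ _ hk'
  rw [h3] at h4
  rw [← hx, ← hx', Option.some.inj h4]

theorem rob1_M1 {K : Type} [LinearOrder K] (e : K → K → ℕ) (ε : K → ℕ → K)
    (he : ∀ b, Set.InjOn (e b) (Set.Iio b)) (hε : ∀ b x, x < b → ∃ k, ε b k = x) :
    Rob1 2 (M1 e ε) := by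
  classical
  intro m
  refine ⟨m + 3, by omega, fun S hS p hp => ?_⟩
  have hne : S.Nonempty := Finset.card_pos.1 (by omega)
  obtain ⟨b, hb⟩ : ∃ b, b = S.max' hne := ⟨_, rfl⟩
  have hbS : b ∈ S := hb ▸ Finset.max'_mem S hne
  have hlt : ∀ y ∈ S.erase b, y < b := by
    intro y hy
    rw [hb]
    exact lt_of_le_of_ne (Finset.le_max' S y (Finset.mem_of_mem_erase hy))
      (hb ▸ Finset.ne_of_mem_erase hy)
  have hcard : (S.erase b).card = m + 2 := by
    rw [Finset.card_erase_of_mem hbS, hS]; omega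
  -- a member with a free number
  obtain ⟨x, hx⟩ : (S.erase b).Nonempty := Finset.card_pos.1 (by omega)
  have hcard2 : ((S.erase b).erase x).card = m + 1 := by
    rw [Finset.card_erase_of_mem hx, hcard]; omega
  have hinj : Set.InjOn (e b) ↑((S.erase b).erase x) :=
    (he b).mono fun y hy => hlt y (Finset.mem_of_mem_erase hy)
  obtain ⟨a, ha, hnone⟩ : ∃ a ∈ (S.erase b).erase x, p.1 (e b a) = none := by
    by_contra hcon
    push Not at hcon
    have h1 : ((S.erase b).erase x).image (e b) ⊆ p.2.toFinset := by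
      intro i hi
      obtain ⟨y, hy, rfl⟩ := Finset.mem_image.1 hi
      exact mem_dom.2 (hcon y hy)
    have h2 := Finset.card_le_card h1
    rw [Finset.card_image_of_injOn hinj, hcard2] at h2
    have h3 : p.2.toFinset.card ≤ m := hp
    omega
  have hax : a ≠ x := Finset.ne_of_mem_erase ha
  have haS : a ∈ S.erase b := Finset.mem_of_mem_erase ha
  obtain ⟨k, hk⟩ := hε b x (hlt x hx)
  refine ⟨{a, b}, ?_, Finset.card_pair (hlt a haS).ne, x, Finset.mem_of_mem_erase hx, ?_,
    ins p (e b a) k, ins_le p k hnone, a, b, k, hlt a haS, rfl, ins_self p _ k, hk⟩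
  · intro y hy
    rcases Finset.mem_insert.1 hy with rfl | hy
    · exact Finset.mem_of_mem_erase haS
    · rw [Finset.mem_singleton.1 hy]; exact hbS
  · intro hxY
    rcases Finset.mem_insert.1 hxY with h | h
    · exact hax h.symm
    · exact Finset.ne_of_mem_erase hx (Finset.mem_singleton.1 h)

/-- robust mappings of type `n + 2` on `ℵ_(n + 1)` -/
theorem exists_rob1 (n : ℕ) :
    ∃ M : Finset ((ℵ_ (n + 1) : Cardinal.{0}).ord.ToType) → (ℵ_ (n + 1) : Cardinal.{0}).ord.ToType →
      Set (Fn ℕ), One M ∧ Rob1 (n + 2) M := by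
  induction n with
  | zero =>
    have hc : ∀ b : K1, (Set.Iio b).Countable := by
      intro b
      have h1 : #(Set.Iio b) < ℵ₁ := by
        have := Cardinal.mk_Iio_lt b (by rw [Cardinal.mk_toType, Cardinal.card_ord,
          Ordinal.type_toType])
        rwa [Cardinal.mk_toType, Cardinal.card_ord] at this
      rw [← Cardinal.le_aleph0_iff_set_countable, ← Order.lt_succ_iff, succ_aleph0]
      exact h1
    have hK : ∀ b : K1, ∃ ε : ℕ → K1, ∀ x, x < b → ∃ k, ε k = x := by
      intro b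
      by_cases hne : (Set.Iio b).Nonempty
      · obtain ⟨ε, hε⟩ := (hc b).exists_eq_range hne
        exact ⟨ε, fun x hx => by
          have : x ∈ Set.range ε := hε ▸ hx
          exact this⟩
      · exact ⟨fun _ => b, fun x hx => absurd ⟨x, hx⟩ hne⟩
    have hE : ∀ b : K1, ∃ e : K1 → ℕ, Set.InjOn e (Set.Iio b) := fun b =>
      Set.countable_iff_exists_injOn.1 (hc b)
    choose ε hε using hK
    choose e he using hE
    have h0 : (ℵ_ ((0 : ℕ) + 1 : Ordinal.{0}) : Cardinal.{0}) = ℵ₁ := by simp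
    have e' : (ℵ_ ((0 : ℕ) + 1 : Ordinal.{0}) : Cardinal.{0}).ord.ToType ≃ K1 := by
      rw [h0]
    exact transfer e'.toEmbedding (one_M1 e ε) (rob1_M1 e ε he fun b x hx => hε b x hx)
  | succ n ih =>
    obtain ⟨M', hone, hrob⟩ := ih
    have hg : ∀ z : (ℵ_ ((n + 1 : ℕ) + 1 : Ordinal.{0}) : Cardinal.{0}).ord.ToType,
        ∃ g : (ℵ_ ((n + 1 : ℕ) + 1 : Ordinal.{0}) : Cardinal.{0}).ord.ToType →
          (ℵ_ (n + 1) : Cardinal.{0}).ord.ToType, Set.InjOn g (Set.Iio z) := by
      intro z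
      have h1 : #(Set.Iio z) < ℵ_ ((n + 1 : ℕ) + 1 : Ordinal.{0}) := by
        have := Cardinal.mk_Iio_lt z (by rw [Cardinal.mk_toType, Cardinal.card_ord,
          Ordinal.type_toType])
        rwa [Cardinal.mk_toType, Cardinal.card_ord] at this
      have h2 : #(Set.Iio z) ≤ #((ℵ_ (n + 1) : Cardinal.{0}).ord.ToType) := by
        rw [Cardinal.mk_toType, Cardinal.card_ord]
        have h3 : (ℵ_ ((n + 1 : ℕ) + 1 : Ordinal.{0}) : Cardinal.{0}) =
            Order.succ (ℵ_ (n + 1 : Ordinal.{0})) := by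
          rw [Cardinal.succ_aleph, Nat.cast_add, Nat.cast_one]
        exact Order.lt_succ_iff.1 (h1.trans_eq h3)
      obtain ⟨g⟩ := Cardinal.le_def _ _ |>.1 h2
      classical
      have hne : Nonempty ((ℵ_ (n + 1) : Cardinal.{0}).ord.ToType) := by
        rw [← Cardinal.mk_ne_zero_iff, Cardinal.mk_toType, Cardinal.card_ord]
        exact (aleph_pos _).ne'
      refine ⟨fun y => if h : y < z then g ⟨y, h⟩ else Classical.arbitrary _, ?_⟩
      intro y hy y' hy' hyy
      have h3 : y < z := hy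
      have h4 : y' < z := hy'
      simp only [h3, h4, dif_pos] at hyy
      exact congrArg Subtype.val (g.injective hyy)
    choose g hg using hg
    exact ⟨Mstep g M', one_Mstep hg hone, rob1_Mstep hg hrob⟩

/-- robust mappings of type `n + 2` on all sets of size `< ℵ_(n + 2)` -/
theorem exists_rob1' (n : ℕ) (κ : Cardinal.{0}) (hκ : κ < ℵ_ ((n + 2 : ℕ) : Ordinal.{0})) :
    ∃ M : Finset κ.out → κ.out → Set (Fn ℕ), One M ∧ Rob1 (n + 2) M := by
  obtain ⟨M, h1, h2⟩ := exists_rob1 n
  have hle : #(κ.out) ≤ #((ℵ_ (n + 1) : Cardinal.{0}).ord.ToType) := by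
    rw [mk_out, mk_toType, card_ord]
    have h3 : (ℵ_ ((n + 2 : ℕ) : Ordinal.{0}) : Cardinal.{0}) =
        Order.succ (ℵ_ (n + 1 : Ordinal.{0})) := by
      rw [Cardinal.succ_aleph]
      congr 1
    rw [h3] at hκ
    exact Order.lt_succ_iff.1 hκ
  obtain ⟨e⟩ := Cardinal.le_def _ _ |>.1 hle
  exact transfer e h1 h2

/-! ### No uncountable free sets -/

instance countable_Fn : Countable (Fn ℕ) := by
  classical
  let g : Fn ℕ → Finset (ℕ × ℕ) := fun p => p.2.toFinset.image fun i => (i, (p.1 i).getD 0)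
  have hg : Function.Injective g := by
    have key : ∀ (p q : Fn ℕ), g p = g q → ∀ i n, p.1 i = some n → q.1 i = some n := by
      intro p q hpq i n hn
      have h2 : (i, n) ∈ g p := Finset.mem_image.2 ⟨i, mem_dom.2 (by rw [hn]; simp), by
        rw [hn]; rfl⟩
      rw [hpq] at h2
      obtain ⟨j, hj, hji⟩ := Finset.mem_image.1 h2
      have h3 : j = i := congrArg Prod.fst hji
      subst h3
      obtain ⟨m, hm⟩ := Option.ne_none_iff_exists'.1 (mem_dom.1 hj)
      have h4 : (q.1 j).getD 0 = n := congrArg Prod.snd hji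
      rw [hm] at h4
      rw [hm, ← h4]
      rfl
    intro p q hpq
    refine Subtype.ext (funext fun i => ?_)
    rcases h3 : p.1 i with _ | n
    · rcases h4 : q.1 i with _ | n
      · rfl
      · have := key q p hpq.symm i n h4
        rw [h3] at this
        exact this
    · exact (key p q hpq i n h3).symm
  exact hg.countable

theorem exists_fiber {ι C : Type} [Countable C] {A : Set ι} (hA : ¬ A.Countable) (g : ι → C) :
    ∃ c : C, ¬ {i | i ∈ A ∧ g i = c}.Countable := by
  by_contra hcon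
  push Not at hcon
  apply hA
  refine (Set.countable_iUnion hcon).mono fun i hi => ?_
  exact Set.mem_iUnion.2 ⟨g i, hi, rfl⟩

/-- **The main lemma**: a robust mapping in the extension by the Cohen real `G ∘ j` has no
uncountable free set in the extension by `G`. -/
theorem noFree1 {I X : Type} {r : ℕ} (j : ℕ → I) (hj : Function.Injective j)
    {M : Finset X → X → Set (Fn ℕ)} (h1 : One M) (h2 : Rob1 r M) (p : Fn I) :
    p ∈ fand (IsSetMapping r (up j hj M)) (fall fun A : X → Set (Fn I) =>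
      fimp (HasManyElements ℵ₁ A) (fnot (IsFree r (up j hj M) A))) := by
  classical
  refine ⟨fun Y _ x x' => mem_fimp.2 ?_, fun A => mem_fimp.2 ?_⟩
  · rintro q _ ⟨hx, hx'⟩
    obtain ⟨q1, hq1, s, hs, hs1⟩ := hx q le_rfl
    obtain ⟨q2, hq2, s', hs', hs2⟩ := hx' q1 hq1
    exact ⟨q2, hq2.trans hq1, one_up j hj h1 Y x x' s s' q2 (hq2.trans hs1) hs2 hs hs'⟩
  · intro q _ hE
    refine ⟨q, le_rfl, fun q' hq' hfree => ?_⟩
    obtain ⟨q1, hq1, E, hE1, hE2, hE3⟩ := mem_fex.1 hE q' hq'
    have hch : ∀ i : (ℵ₁ : Cardinal.{0}).out, ∃ (s : Fn I) (x : X), s ≤ q1 ∧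
        s ∈ meets (E i x) ∧ s ∈ meets (A x) := by
      intro i
      obtain ⟨s, hs, x, hx⟩ := mem_fex.1 (hE1.1 i) q1 le_rfl
      obtain ⟨s', hs', hx'⟩ := mem_fimp.1 (hE3 i x) s hs hx
      exact ⟨s', x, hs'.trans hs, down_meets _ _ hx _ hs', hx'⟩
    choose s x hs1 hs2 hs3 using hch
    have hunc : ¬ (Set.univ : Set (ℵ₁ : Cardinal.{0}).out).Countable := by
      rw [← Cardinal.le_aleph0_iff_set_countable, mk_univ, mk_out, not_le]
      exact aleph0_lt_aleph_one
    obtain ⟨c, hc⟩ := exists_fiber hunc (fun i => res j hj (s i))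
    obtain ⟨m, hm⟩ := exists_large hc s
    obtain ⟨N, _, hrob⟩ := h2 (sz c)
    obtain ⟨t, ht, htN, hcons⟩ := exists_family m _ s hm (fun i hi => hi.2) N
    obtain ⟨q0, hq0, -⟩ := exists_lb t s (fun i hi => (ht hi).2) hcons
    obtain ⟨q2, hq2d⟩ : ∃ q2, q2 = put j q0 c := ⟨_, rfl⟩
    have hq2 : ∀ i ∈ t, q2 ≤ s i := by
      intro i hi
      rw [hq2d]
      refine put_le j hj (hq0 i hi) ?_
      rw [(ht hi).1.2]
    have hres : res j hj q2 = c := by rw [hq2d]; exact res_put j hj _ _
    have hinj : Set.InjOn x ↑t := by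
      intro i hi i' hi' hij
      by_contra hne
      have hle : q2 ≤ q1 := (hq2 i hi).trans (hs1 i)
      have h3 : q2 ∈ meets (E i (x i)) := down_meets _ _ (hs2 i) _ (hq2 i hi)
      have h4 : q2 ∈ meets (E i' (x i)) := by
        rw [hij]
        exact down_meets _ _ (hs2 i') _ (hq2 i' hi')
      exact hne (IsInj.eq (down_IsInj E _ hE2 _ hle) h3 h4)
    obtain ⟨Y, hY, hYr, y, hy, hyY, q3', hq3', hq3M⟩ := hrob (t.image x) (by
      rw [Finset.card_image_of_injOn hinj, htN]) c le_rfl
    obtain ⟨q3, hq3d⟩ : ∃ q3, q3 = put j q2 q3' := ⟨_, rfl⟩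
    have hq3 : q3 ≤ q2 := by
      rw [hq3d]
      refine put_le j hj le_rfl ?_
      rw [hres]
      exact hq3'
    have hq3M' : q3 ∈ up j hj M Y y := by
      show res j hj q3 ∈ M Y y
      rw [hq3d, res_put]
      exact hq3M
    have hA : ∀ z ∈ t.image x, q2 ∈ meets (A z) ∧ q2 ≤ q1 := by
      intro z hz
      obtain ⟨i, hi, rfl⟩ := Finset.mem_image.1 hz
      exact ⟨down_meets _ _ (hs3 i) _ (hq2 i hi), (hq2 i hi).trans (hs1 i)⟩
    have hle : q2 ≤ q1 := (hA y hy).2
    obtain ⟨q4, hq4, h4⟩ := mem_fimp.1 (hfree Y hYr y hyY) q3 (hq3.trans (hle.trans hq1))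
      ⟨fun z hz => down_meets _ _ (hA z (hY hz)).1 _ hq3, down_meets _ _ (hA y hy).1 _ hq3⟩
    exact h4 q4 le_rfl (down_meets _ _ (meets_of_mem hq3M') _ hq4)

/-- after adding at least one Cohen real -/
theorem noFreeSet1 {I : Type} [Infinite I] (n : ℕ) (κ : Cardinal.{0})
    (hκ : κ < ℵ_ ((n + 2 : ℕ) : Ordinal.{0})) (p : Fn I) :
    p ∈ NoFreeSet.{0, 0} (Fn I) κ (n + 2) ℵ₁ := by
  obtain ⟨M, h1, h2⟩ := exists_rob1' n κ hκ
  let j := Infinite.natEmbedding I
  exact mem_fex_of_mem (up j j.injective M) (down_stuff _) (noFree1 j j.injective h1 h2 p)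

end Pool.Agent.Y767.SM
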