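import Pool.Agent.Y767.SM.Rank3

set_option autoImplicit false

namespace Pool.Agent.Y767.SM

open Cardinal Vx

variable {V : Type} {r : ℕ}

/-- the vertex set of the padded hypergraph -/
abbrev PV (V : Type) (r : ℕ) : Type := V ⊕ (Fin r ⊕ Fin 2)

/-- old vertices -/
def il (V : Type) (r : ℕ) : V ↪ PV V r := ⟨fun v => Sum.inl v, Sum.inl_injective⟩

/-- pad vertices -/
def zl (V : Type) (r : ℕ) : Fin r ↪ PV V r :=
  ⟨fun k => Sum.inr (Sum.inl k), fun a b h => by simpa using h⟩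

@[simp] lemma il_apply (v : V) : il V r v = Sum.inl v := rfl
@[simp] lemma zl_apply (k : Fin r) : zl V r k = Sum.inr (Sum.inl k) := rfl

/-- padding an edge by the missing colours -/
noncomputable def pad (c : V → Fin r) (e : Finset V) : Finset (PV V r) := by
  classical exact e.map (il V r) ∪ (Finset.univ.filter fun k => ∀ v ∈ e, c v ≠ k).map (zl V r)

/-- the two forced edges; `s` is the missing colour -/
noncomputable def fc (V : Type) (s : Fin r) (j : Fin 2) : Finset (PV V r) := by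
  classical exact insert (Sum.inr (Sum.inr j)) ((Finset.univ.erase s).map (zl V r))

lemma inl_mem_pad {c : V → Fin r} {e : Finset V} {v : V} :
    (Sum.inl v : PV V r) ∈ pad c e ↔ v ∈ e := by
  classical
  simp [pad]

lemma z_mem_pad {c : V → Fin r} {e : Finset V} {k : Fin r} :
    (Sum.inr (Sum.inl k) : PV V r) ∈ pad c e ↔ ∀ v ∈ e, c v ≠ k := by
  classical
  simp [pad]

lemma p_mem_pad {c : V → Fin r} {e : Finset V} {j : Fin 2} :
    (Sum.inr (Sum.inr j) : PV V r) ∉ pad c e := by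
  classical
  simp [pad]

lemma inl_mem_fc {s : Fin r} {j : Fin 2} {v : V} : (Sum.inl v : PV V r) ∉ fc V s j := by
  classical
  simp [fc]

lemma z_mem_fc {s : Fin r} {j : Fin 2} {k : Fin r} :
    (Sum.inr (Sum.inl k) : PV V r) ∈ fc V s j ↔ k ≠ s := by
  classical
  simp [fc]

lemma p_mem_fc {s : Fin r} {j j' : Fin 2} :
    (Sum.inr (Sum.inr j') : PV V r) ∈ fc V s j ↔ j' = j := by
  classical
  simp [fc]

lemma pad_inj (c : V → Fin r) : Function.Injective (pad c) := by
  intro e e' h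
  ext v
  rw [← inl_mem_pad (c := c), h, inl_mem_pad]

lemma card_pad {c : V → Fin r} {e : Finset V} (h : Set.InjOn c (e : Set V)) :
    (pad c e).card = r := by
  classical
  unfold pad
  rw [Finset.card_union_of_disjoint, Finset.card_map, Finset.card_map]
  · have h1 : (Finset.univ.filter fun k => ∀ v ∈ e, c v ≠ k) = (e.image c)ᶜ := by
      ext k; simp
    rw [h1, Finset.card_compl, Finset.card_image_of_injOn h, Fintype.card_fin]
    have : e.card ≤ r := by
      rw [← Finset.card_image_of_injOn h]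
      simpa using Finset.card_le_univ (e.image c)
    omega
  · rw [Finset.disjoint_left]
    intro x hx hx'
    simp only [Finset.mem_map, il_apply, zl_apply] at hx hx'
    obtain ⟨a, _, rfl⟩ := hx
    obtain ⟨b, _, hb⟩ := hx'
    simp at hb

lemma card_fc (s : Fin r) (j : Fin 2) : (fc V s j).card = r := by
  classical
  unfold fc
  rw [Finset.card_insert_of_notMem, Finset.card_map, Finset.card_erase_of_mem (Finset.mem_univ _),
    Finset.card_univ, Fintype.card_fin]
  · have := s.2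
    omega
  · simp

/-- the parts of the padded hypergraph -/
def part (c : V → Fin r) (s : Fin 2 → Fin r) : PV V r → Fin r
  | Sum.inl v => c v
  | Sum.inr (Sum.inl k) => k
  | Sum.inr (Sum.inr j) => s j

lemma part_pad {c : V → Fin r} (s : Fin 2 → Fin r) {e : Finset V} (h : Set.InjOn c (e : Set V)) :
    Set.InjOn (part c s) (pad c e : Set (PV V r)) := by
  rintro (v | k | j) hx (v' | k' | j') hy hxy
  · rw [Finset.mem_coe, inl_mem_pad] at hx hy
    rw [h hx hy hxy]
  · rw [Finset.mem_coe, inl_mem_pad] at hx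
    rw [Finset.mem_coe, z_mem_pad] at hy
    exact absurd hxy (hy v hx)
  · exact absurd hy p_mem_pad
  · rw [Finset.mem_coe, z_mem_pad] at hx
    rw [Finset.mem_coe, inl_mem_pad] at hy
    exact absurd hxy.symm (hx v' hy)
  · have : k = k' := hxy
    rw [this]
  · exact absurd hy p_mem_pad
  · exact absurd hx p_mem_pad
  · exact absurd hx p_mem_pad
  · exact absurd hx p_mem_pad

lemma part_fc (c : V → Fin r) (s : Fin 2 → Fin r) (j : Fin 2) :
    Set.InjOn (part c s) (fc V (s j) j : Set (PV V r)) := by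
  rintro (v | k | i) hx (v' | k' | i') hy hxy
  · exact absurd hx inl_mem_fc
  · exact absurd hx inl_mem_fc
  · exact absurd hx inl_mem_fc
  · exact absurd hy inl_mem_fc
  · have : k = k' := hxy
    rw [this]
  · rw [Finset.mem_coe, z_mem_fc] at hx
    rw [Finset.mem_coe, p_mem_fc] at hy
    have h1 : k = s i' := hxy
    rw [hy] at h1
    exact absurd h1 hx
  · exact absurd hy inl_mem_fc
  · rw [Finset.mem_coe, z_mem_fc] at hy
    rw [Finset.mem_coe, p_mem_fc] at hx
    have h1 : s i = k' := hxy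
    rw [hx] at h1
    exact absurd h1.symm hy
  · rw [Finset.mem_coe, p_mem_fc] at hx hy
    rw [hx, hy]

/-- Padding keeps the absence of strongly minimal covers. -/
theorem lift (E : Set (Finset V)) (c : V → Fin r) (s : Fin 2 → Fin r) (hs : s 0 ≠ s 1)
    (hE : ∀ v : V, ∃ e ∈ E, v ∈ e)
    (hno : ∀ F : Set (Finset V), F ⊆ E → (∀ v : V, ∃ e ∈ F, v ∈ e) →
        ∃ F' : Set (Finset V), F' ⊆ E ∧ (∀ v : V, ∃ e ∈ F', v ∈ e) ∧
          Cardinal.mk ↥(F' \ F) < Cardinal.mk ↥(F \ F')) :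
    (∀ v : PV V r, ∃ e ∈ pad c '' E ∪ {f | ∃ j, f = fc V (s j) j}, v ∈ e) ∧
    ∀ F : Set (Finset (PV V r)), F ⊆ pad c '' E ∪ {f | ∃ j, f = fc V (s j) j} →
      (∀ v : PV V r, ∃ e ∈ F, v ∈ e) →
        ∃ F' : Set (Finset (PV V r)), F' ⊆ pad c '' E ∪ {f | ∃ j, f = fc V (s j) j} ∧
          (∀ v : PV V r, ∃ e ∈ F', v ∈ e) ∧
          Cardinal.mk ↥(F' \ F) < Cardinal.mk ↥(F \ F') := by
  have hz : ∀ k : Fin r, ∃ j : Fin 2, k ≠ s j := by
    intro k
    by_cases h : k = s 0
    · exact ⟨1, fun h1 => hs (h.symm.trans h1)⟩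
    · exact ⟨0, h⟩
  have cov : ∀ F₀ : Set (Finset V), (∀ v : V, ∃ e ∈ F₀, v ∈ e) →
      ∀ v : PV V r, ∃ e ∈ pad c '' F₀ ∪ {f | ∃ j, f = fc V (s j) j}, v ∈ e := by
    rintro F₀ h0 (v | k | j)
    · obtain ⟨e, he, hv⟩ := h0 v
      exact ⟨_, Or.inl ⟨e, he, rfl⟩, inl_mem_pad.2 hv⟩
    · obtain ⟨j, hj⟩ := hz k
      exact ⟨_, Or.inr ⟨j, rfl⟩, z_mem_fc.2 hj⟩
    · exact ⟨_, Or.inr ⟨j, rfl⟩, p_mem_fc.2 rfl⟩
  refine ⟨cov E hE, ?_⟩
  intro F hF hcF
  have hforced : ∀ j, fc V (s j) j ∈ F := by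
    intro j
    obtain ⟨e, he, hv⟩ := hcF (Sum.inr (Sum.inr j))
    rcases hF he with ⟨e', _, rfl⟩ | ⟨j', rfl⟩
    · exact absurd hv p_mem_pad
    · rw [p_mem_fc] at hv
      rw [hv]
      exact he
  let F₀ : Set (Finset V) := {e | e ∈ E ∧ pad c e ∈ F}
  have hF₀ : ∀ v : V, ∃ e ∈ F₀, v ∈ e := by
    intro v
    obtain ⟨e, he, hv⟩ := hcF (Sum.inl v)
    rcases hF he with ⟨e', he', rfl⟩ | ⟨j', rfl⟩
    · exact ⟨e', ⟨he', he⟩, inl_mem_pad.1 hv⟩
    · exact absurd hv inl_mem_fc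
  obtain ⟨F₁, h1, h2, h3⟩ := hno F₀ (fun e he => he.1) hF₀
  refine ⟨pad c '' F₁ ∪ {f | ∃ j, f = fc V (s j) j}, ?_, cov F₁ h2, ?_⟩
  · exact Set.union_subset_union_left _ (Set.image_mono h1)
  · have hsub1 : (pad c '' F₁ ∪ {f | ∃ j, f = fc V (s j) j}) \ F ⊆ pad c '' (F₁ \ F₀) := by
      rintro _ ⟨⟨e, he, rfl⟩ | ⟨j, rfl⟩, hn⟩
      · exact ⟨e, ⟨he, fun h => hn h.2⟩, rfl⟩
      · exact absurd (hforced j) hn
    have hsub2 : pad c '' (F₀ \ F₁) ⊆ F \ (pad c '' F₁ ∪ {f | ∃ j, f = fc V (s j) j}) := by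
      rintro _ ⟨e, ⟨he, hn⟩, rfl⟩
      refine ⟨he.2, ?_⟩
      rintro (⟨e', he', h⟩ | ⟨j, h⟩)
      · exact hn (pad_inj c h ▸ he')
      · have : (Sum.inr (Sum.inr j) : PV V r) ∈ pad c e := by
          rw [h]
          exact p_mem_fc.2 rfl
        exact p_mem_pad this
    calc Cardinal.mk ↥((pad c '' F₁ ∪ {f | ∃ j, f = fc V (s j) j}) \ F)
        ≤ Cardinal.mk ↥(pad c '' (F₁ \ F₀)) := Cardinal.mk_le_mk_of_subset hsub1
      _ ≤ Cardinal.mk ↥(F₁ \ F₀) := Cardinal.mk_image_le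
      _ < Cardinal.mk ↥(F₀ \ F₁) := h3
      _ = Cardinal.mk ↥(pad c '' (F₀ \ F₁)) := (Cardinal.mk_image_eq (pad_inj c)).symm
      _ ≤ _ := Cardinal.mk_le_mk_of_subset hsub2

/-- the three parts of the hypergraph of rank three -/
def kind : Vx → ℕ
  | x _ => 1
  | t _ _ => 0
  | b _ _ => 1
  | l _ _ => 2
  | Vx.r _ _ => 0

lemma kind_lt (v : Vx) : kind v < 3 := by
  cases v <;> simp [kind]

lemma kind_inj {e : Finset Vx} (he : e ∈ E) : Set.InjOn kind (e : Set Vx) := by
  rcases he with ⟨n, hn⟩ | ⟨v, _, rfl⟩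
  · rw [mem_G] at hn
    rcases hn with ⟨i, hi, rfl⟩ | ⟨i, hi, rfl⟩ | ⟨i, hi, rfl⟩ | ⟨i, hi, rfl⟩
    · intro u hu w hw h
      simp only [A, Finset.coe_insert, Finset.coe_singleton, Set.mem_insert_iff,
        Set.mem_singleton_iff] at hu hw
      rcases hu with rfl | rfl <;> rcases hw with rfl | rfl <;> simp_all [kind]
    · intro u hu w hw h
      simp only [B, Finset.coe_insert, Finset.coe_singleton, Set.mem_insert_iff,
        Set.mem_singleton_iff] at hu hw
      rcases hu with rfl | rfl <;> rcases hw with rfl | rfl <;> simp_all [kind]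
    · intro u hu w hw h
      simp only [C, Finset.coe_insert, Finset.coe_singleton, Set.mem_insert_iff,
        Set.mem_singleton_iff] at hu hw
      rcases hu with rfl | rfl | rfl <;> rcases hw with rfl | rfl | rfl <;> simp_all [kind]
    · intro u hu w hw h
      simp only [L, Finset.coe_insert, Finset.coe_singleton, Set.mem_insert_iff,
        Set.mem_singleton_iff] at hu hw
      rcases hu with rfl | rfl <;> rcases hw with rfl | rfl <;> simp_all [kind]
  · intro u hu w hw _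
    simp only [Finset.coe_singleton, Set.mem_singleton_iff] at hu hw
    rw [hu, hw]

/-- code -/
def cd : Vx → ℕ × ℕ × ℕ
  | x i => (0, i, 0)
  | t n i => (1, n, i)
  | b n i => (2, n, i)
  | l n i => (3, n, i)
  | Vx.r n i => (4, n, i)

instance : Countable Vx := by
  have : Function.Injective cd := by
    intro u w h
    cases u <;> cases w <;> simp_all [cd]
  exact this.countable

end Pool.Agent.Y767.SM
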