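import Mathlib

set_option autoImplicit false

/-! Copied from `Pool.Agent.Results.MP_6b8a7b_co.RankThree`. -/

namespace Pool.Agent.Y767.SM

open Cardinal

/-- Vertices: `x i` are the elements, the other ones belong to gadget `n`. -/
inductive Vx : Type
  | x : ℕ → Vx
  | t : ℕ → ℕ → Vx
  | b : ℕ → ℕ → Vx
  | l : ℕ → ℕ → Vx
  | r : ℕ → ℕ → Vx
  deriving DecidableEq

open Vx

/-- The vertices that are really used; every other vertex forms a hyperedge by itself. -/
def Valid : Vx → Prop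
  | x _ => True
  | t n i => i ≤ n
  | b n i => i ≤ n
  | l n i => i ≤ n + 1
  | r n i => i ≤ n + 1

def A (n i : ℕ) : Finset Vx := {x i, t n i}
def B (n i : ℕ) : Finset Vx := {t n i, b n i}
def C (n i : ℕ) : Finset Vx := {r n i, b n i, l n (i + 1)}
def L (n i : ℕ) : Finset Vx := {l n i, r n i}

/-- The hyperedges of gadget `n` -/
def G (n : ℕ) : Finset (Finset Vx) :=
  (Finset.range (n + 1)).image (A n) ∪ (Finset.range (n + 1)).image (B n) ∪
    (Finset.range (n + 1)).image (C n) ∪ (Finset.range (n + 2)).image (L n)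

lemma mem_G {n : ℕ} {e : Finset Vx} : e ∈ G n ↔
    (∃ i ≤ n, e = A n i) ∨ (∃ i ≤ n, e = B n i) ∨ (∃ i ≤ n, e = C n i) ∨
      (∃ i ≤ n + 1, e = L n i) := by
  simp only [G, Finset.mem_union, Finset.mem_image, Finset.mem_range]
  constructor
  · rintro (((⟨i, hi, rfl⟩ | ⟨i, hi, rfl⟩) | ⟨i, hi, rfl⟩) | ⟨i, hi, rfl⟩)
    · exact Or.inl ⟨i, by omega, rfl⟩
    · exact Or.inr (Or.inl ⟨i, by omega, rfl⟩)
    · exact Or.inr (Or.inr (Or.inl ⟨i, by omega, rfl⟩))
    · exact Or.inr (Or.inr (Or.inr ⟨i, by omega, rfl⟩))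
  · rintro (⟨i, hi, rfl⟩ | ⟨i, hi, rfl⟩ | ⟨i, hi, rfl⟩ | ⟨i, hi, rfl⟩)
    · exact Or.inl (Or.inl (Or.inl ⟨i, by omega, rfl⟩))
    · exact Or.inl (Or.inl (Or.inr ⟨i, by omega, rfl⟩))
    · exact Or.inl (Or.inr ⟨i, by omega, rfl⟩)
    · exact Or.inr ⟨i, by omega, rfl⟩

/-- All hyperedges -/
def E : Set (Finset Vx) := {e | (∃ n, e ∈ G n) ∨ ∃ v, ¬ Valid v ∧ e = {v}}

/-- A covering family -/
def Cov (F : Set (Finset Vx)) : Prop := ∀ v, ∃ e ∈ F, v ∈ e

/-- gadget of a vertex -/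
def gad : Vx → Option ℕ
  | x _ => none
  | t n _ => some n
  | b n _ => some n
  | l n _ => some n
  | r n _ => some n

lemma gad_of_mem {n : ℕ} {e : Finset Vx} (he : e ∈ G n) {v : Vx} (hv : v ∈ e) :
    gad v = none ∨ gad v = some n := by
  rw [mem_G] at he
  rcases he with ⟨i, hi, rfl⟩ | ⟨i, hi, rfl⟩ | ⟨i, hi, rfl⟩ | ⟨i, hi, rfl⟩
  · simp only [A, Finset.mem_insert, Finset.mem_singleton] at hv
    rcases hv with rfl | rfl <;> simp [gad]
  · simp only [B, Finset.mem_insert, Finset.mem_singleton] at hv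
    rcases hv with rfl | rfl <;> simp [gad]
  · simp only [C, Finset.mem_insert, Finset.mem_singleton] at hv
    rcases hv with rfl | rfl | rfl <;> simp [gad]
  · simp only [L, Finset.mem_insert, Finset.mem_singleton] at hv
    rcases hv with rfl | rfl <;> simp [gad]

lemma exists_gad {n : ℕ} {e : Finset Vx} (he : e ∈ G n) : ∃ v ∈ e, gad v = some n := by
  rw [mem_G] at he
  rcases he with ⟨i, hi, rfl⟩ | ⟨i, hi, rfl⟩ | ⟨i, hi, rfl⟩ | ⟨i, hi, rfl⟩
  · exact ⟨t n i, by simp [A], rfl⟩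
  · exact ⟨t n i, by simp [B], rfl⟩
  · exact ⟨b n i, by simp [C], rfl⟩
  · exact ⟨l n i, by simp [L], rfl⟩

lemma G_disj {n m : ℕ} (h : n ≠ m) {e : Finset Vx} (hn : e ∈ G n) : e ∉ G m := by
  intro hm
  obtain ⟨v, hv, hg⟩ := exists_gad hn
  rcases gad_of_mem hm hv with h' | h'
  · rw [hg] at h'; simp at h'
  · rw [hg] at h'; exact h (by simpa using h')

lemma valid_of_mem_G {n : ℕ} {e : Finset Vx} (he : e ∈ G n) {v : Vx} (hv : v ∈ e) :
    Valid v := by
  rw [mem_G] at he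
  rcases he with ⟨i, hi, rfl⟩ | ⟨i, hi, rfl⟩ | ⟨i, hi, rfl⟩ | ⟨i, hi, rfl⟩
  · simp only [A, Finset.mem_insert, Finset.mem_singleton] at hv
    rcases hv with rfl | rfl <;> simp [Valid, hi]
  · simp only [B, Finset.mem_insert, Finset.mem_singleton] at hv
    rcases hv with rfl | rfl <;> simp [Valid, hi]
  · simp only [C, Finset.mem_insert, Finset.mem_singleton] at hv
    rcases hv with rfl | rfl | rfl <;> simp [Valid] <;> omega
  · simp only [L, Finset.mem_insert, Finset.mem_singleton] at hv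
    rcases hv with rfl | rfl <;> simp [Valid, hi]

/-- A valid vertex of gadget `n` is covered by hyperedges of gadget `n` only. -/
lemma cover_in_G {F : Set (Finset Vx)} (hF : F ⊆ E) {v : Vx} {n : ℕ} (hval : Valid v)
    (hg : gad v = some n) {e : Finset Vx} (he : e ∈ F) (hv : v ∈ e) : e ∈ G n := by
  rcases hF he with ⟨k, hk⟩ | ⟨w, hw, rfl⟩
  · rcases gad_of_mem hk hv with h | h
    · rw [hg] at h; simp at h
    · rw [hg] at h
      have : n = k := by simpa using h
      rw [this]; exact hk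
  · rw [Finset.mem_singleton] at hv
    subst hv
    exact absurd hval hw

/-- the test vertices, all but one -/
def W (n j : ℕ) : Finset Vx :=
  ((Finset.range (n + 1)).erase j).image (t n) ∪ (Finset.range (j + 1)).image (l n) ∪
    {b n j} ∪ (Finset.Ioc j (n + 1)).image (r n)

lemma mem_W {n j : ℕ} {v : Vx} : v ∈ W n j ↔
    (∃ i ≤ n, i ≠ j ∧ v = t n i) ∨ (∃ i ≤ j, v = l n i) ∨ v = b n j ∨
      (∃ i, j < i ∧ i ≤ n + 1 ∧ v = r n i) := by
  simp only [W, Finset.mem_union, Finset.mem_image, Finset.mem_range, Finset.mem_erase,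
    Finset.mem_singleton, Finset.mem_Ioc]
  constructor
  · rintro (((⟨i, ⟨hi, hi'⟩, rfl⟩ | ⟨i, hi, rfl⟩) | rfl) | ⟨i, ⟨hi, hi'⟩, rfl⟩)
    · exact Or.inl ⟨i, by omega, hi, rfl⟩
    · exact Or.inr (Or.inl ⟨i, by omega, rfl⟩)
    · exact Or.inr (Or.inr (Or.inl rfl))
    · exact Or.inr (Or.inr (Or.inr ⟨i, hi, hi', rfl⟩))
  · rintro (⟨i, hi, hi', rfl⟩ | ⟨i, hi, rfl⟩ | rfl | ⟨i, hi, hi', rfl⟩)
    · exact Or.inl (Or.inl (Or.inl ⟨i, ⟨hi', by omega⟩, rfl⟩))
    · exact Or.inl (Or.inl (Or.inr ⟨i, by omega, rfl⟩))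
    · exact Or.inl (Or.inr rfl)
    · exact Or.inr ⟨i, ⟨hi, hi'⟩, rfl⟩

lemma card_W {n j : ℕ} (hj : j ≤ n) : (W n j).card = 2 * n + 3 := by
  have h1 : (((Finset.range (n + 1)).erase j).image (t n)).card = n := by
    rw [Finset.card_image_of_injective _ (fun a b h => by simpa using h),
      Finset.card_erase_of_mem (Finset.mem_range.2 (by omega))]
    simp
  have h2 : ((Finset.range (j + 1)).image (l n)).card = j + 1 := by
    rw [Finset.card_image_of_injective _ (fun a b h => by simpa using h)]; simp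
  have h3 : ((Finset.Ioc j (n + 1)).image (r n)).card = n + 1 - j := by
    rw [Finset.card_image_of_injective _ (fun a b h => by simpa using h)]; simp
  unfold W
  rw [Finset.card_union_of_disjoint, Finset.card_union_of_disjoint, Finset.card_union_of_disjoint,
    h1, h2, h3, Finset.card_singleton]
  · omega
  · rw [Finset.disjoint_left]; intro v hv hv'
    simp only [Finset.mem_image] at hv hv'
    obtain ⟨i, -, rfl⟩ := hv
    obtain ⟨k, -, hk⟩ := hv'
    simp at hk
  · rw [Finset.disjoint_left]; intro v hv hv'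
    simp only [Finset.mem_image, Finset.mem_union, Finset.mem_singleton] at hv hv'
    subst hv'
    rcases hv with ⟨i, -, h⟩ | ⟨i, -, h⟩ <;> simp at h
  · rw [Finset.disjoint_left]; intro v hv hv'
    simp only [Finset.mem_image, Finset.mem_union, Finset.mem_singleton] at hv hv'
    obtain ⟨k, -, hk⟩ := hv'
    subst hk
    rcases hv with (⟨i, -, h⟩ | ⟨i, -, h⟩) | h <;> simp at h

/-- every hyperedge contains at most one of the test vertices -/
lemma W_unique {n j : ℕ} {e : Finset Vx} (he : e ∈ G n) {v w : Vx} (hv : v ∈ W n j)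
    (hw : w ∈ W n j) (hve : v ∈ e) (hwe : w ∈ e) : v = w := by
  rw [mem_W] at hv hw
  rw [mem_G] at he
  rcases he with ⟨i, hi, rfl⟩ | ⟨i, hi, rfl⟩ | ⟨i, hi, rfl⟩ | ⟨i, hi, rfl⟩ <;>
  [simp only [A, Finset.mem_insert, Finset.mem_singleton] at hve hwe;
   simp only [B, Finset.mem_insert, Finset.mem_singleton] at hve hwe;
   simp only [C, Finset.mem_insert, Finset.mem_singleton] at hve hwe;
   simp only [L, Finset.mem_insert, Finset.mem_singleton] at hve hwe] <;>
  rcases hv with ⟨p, hp, hp', rfl⟩ | ⟨p, hp, rfl⟩ | rfl | ⟨p, hp, hp', rfl⟩ <;>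
  rcases hw with ⟨q, hq, hq', rfl⟩ | ⟨q, hq, rfl⟩ | rfl | ⟨q, hq, hq', rfl⟩ <;>
  simp at hve hwe ⊢ <;> omega

lemma gad_W {n j : ℕ} {v : Vx} (hv : v ∈ W n j) : gad v = some n := by
  rw [mem_W] at hv
  rcases hv with ⟨p, hp, hp', rfl⟩ | ⟨p, hp, rfl⟩ | rfl | ⟨p, hp, hp', rfl⟩ <;> rfl

lemma valid_W {n j : ℕ} (hj : j ≤ n) {v : Vx} (hv : v ∈ W n j) : Valid v := by
  rw [mem_W] at hv
  rcases hv with ⟨p, hp, hp', rfl⟩ | ⟨p, hp, rfl⟩ | rfl | ⟨p, hp, hp', rfl⟩ <;>
    simp [Valid] <;> omega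

/-- An active gadget costs at least `2 n + 4`. -/
lemma cost_active {F : Set (Finset Vx)} (hF : F ⊆ E) (hcov : Cov F) {n j : ℕ} (hj : j ≤ n)
    (hA : A n j ∈ F) (P : Finset (Finset Vx)) (hP : ∀ e, e ∈ P ↔ e ∈ F ∧ e ∈ G n) :
    2 * n + 4 ≤ P.card := by
  classical
  choose f hfF hfv using hcov
  have hf : ∀ v ∈ W n j, f v ∈ P.erase (A n j) := by
    intro v hv
    have h1 : f v ∈ G n := cover_in_G hF (valid_W hj hv) (gad_W hv) (hfF v) (hfv v)
    rw [Finset.mem_erase]
    refine ⟨?_, (hP _).2 ⟨hfF v, h1⟩⟩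
    intro h2
    have h3 := hfv v
    rw [h2] at h3
    simp only [A, Finset.mem_insert, Finset.mem_singleton] at h3
    rw [mem_W] at hv
    rcases hv with ⟨p, hp, hp', rfl⟩ | ⟨p, hp, rfl⟩ | rfl | ⟨p, hp, hp', rfl⟩
    · simp at h3; exact hp' h3
    · simp at h3
    · simp at h3
    · simp at h3
  have hinj : Set.InjOn f (W n j : Set Vx) := by
    intro v hv w hw hvw
    have h1 : f v ∈ G n := cover_in_G hF (valid_W hj hv) (gad_W hv) (hfF v) (hfv v)
    exact W_unique h1 hv hw (hfv v) (hvw ▸ hfv w)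
  have h1 := Finset.card_le_card_of_injOn f hf hinj
  have hAG : A n j ∈ G n := mem_G.2 (Or.inl ⟨j, hj, rfl⟩)
  have hAP : A n j ∈ P := (hP _).2 ⟨hA, hAG⟩
  rw [card_W hj, Finset.card_erase_of_mem hAP] at h1
  have h2 : 0 < P.card := Finset.card_pos.2 ⟨_, hAP⟩
  omega

/-- A finite exchange which makes the finite part smaller is an improvement. -/
lemma swap (M : Set (Finset Vx)) (G T P : Finset (Finset Vx)) (hT : T ⊆ G)
    (hP : ∀ a, a ∈ P ↔ a ∈ M ∧ a ∈ G) (h : T.card < P.card) :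
    #↥(((M \ (G : Set (Finset Vx))) ∪ (T : Set (Finset Vx))) \ M) <
      #↥(M \ ((M \ (G : Set (Finset Vx))) ∪ (T : Set (Finset Vx)))) := by
  have h1 : M \ ((M \ (G : Set (Finset Vx))) ∪ (T : Set (Finset Vx))) =
      ((P \ T : Finset (Finset Vx)) : Set (Finset Vx)) := by
    ext a
    simp only [Set.mem_sdiff, Set.mem_union, Finset.mem_coe, Finset.mem_sdiff, hP]
    tauto
  have h2 : ((M \ (G : Set (Finset Vx))) ∪ (T : Set (Finset Vx))) \ M =
      ((T \ P : Finset (Finset Vx)) : Set (Finset Vx)) := by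
    ext a
    simp only [Set.mem_sdiff, Set.mem_union, Finset.mem_coe, Finset.mem_sdiff, hP]
    constructor
    · tauto
    · rintro ⟨ha, hb⟩
      refine ⟨Or.inr ha, fun hM => hb ⟨hM, hT ha⟩⟩
  rw [h1, h2]
  simp only [Finset.coe_sort_coe, Cardinal.mk_coe_finset, Nat.cast_lt]
  have e1 := Finset.card_sdiff_add_card_inter P T
  have e2 := Finset.card_sdiff_add_card_inter T P
  rw [Finset.inter_comm] at e2
  omega

lemma exists_valid_edge (v : Vx) : ∃ e ∈ E, v ∈ e := by
  by_cases h : Valid v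
  · cases v with
    | x i => exact ⟨A i i, Or.inl ⟨i, mem_G.2 (Or.inl ⟨i, le_rfl, rfl⟩)⟩, by simp [A]⟩
    | t n i => exact ⟨A n i, Or.inl ⟨n, mem_G.2 (Or.inl ⟨i, h, rfl⟩)⟩, by simp [A]⟩
    | b n i => exact ⟨B n i, Or.inl ⟨n, mem_G.2 (Or.inr (Or.inl ⟨i, h, rfl⟩))⟩, by simp [B]⟩
    | l n i =>
      exact ⟨L n i, Or.inl ⟨n, mem_G.2 (Or.inr (Or.inr (Or.inr ⟨i, h, rfl⟩)))⟩, by simp [L]⟩
    | r n i =>
      exact ⟨L n i, Or.inl ⟨n, mem_G.2 (Or.inr (Or.inr (Or.inr ⟨i, h, rfl⟩)))⟩, by simp [L]⟩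
  · exact ⟨{v}, Or.inr ⟨v, h, rfl⟩, by simp⟩

lemma card_E {e : Finset Vx} (he : e ∈ E) : e.card ≤ 3 := by
  rcases he with ⟨n, he⟩ | ⟨v, -, rfl⟩
  · rw [mem_G] at he
    rcases he with ⟨i, hi, rfl⟩ | ⟨i, hi, rfl⟩ | ⟨i, hi, rfl⟩ | ⟨i, hi, rfl⟩
    · exact Finset.card_le_two.trans (by norm_num)
    · exact Finset.card_le_two.trans (by norm_num)
    · exact Finset.card_le_three
    · exact Finset.card_le_two.trans (by norm_num)
  · simp

/-- Two active gadgets can be merged. -/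
lemma merge (F : Set (Finset Vx)) (hF : F ⊆ E) (hcov : Cov F) (n m j j' : ℕ) (hnm : n < m)
    (hj : j ≤ n) (hj' : j' ≤ m) (hA : A n j ∈ F) (hA' : A m j' ∈ F) :
    ∃ F' ⊆ E, Cov F' ∧ #↥(F' \ F) < #↥(F \ F') := by
  classical
  let X : Finset ℕ := (Finset.range (m + 1)).filter
    (fun i => (i ≤ n ∧ A n i ∈ F) ∨ A m i ∈ F)
  have hX : ∀ i, i ∈ X ↔ i ≤ m ∧ ((i ≤ n ∧ A n i ∈ F) ∨ A m i ∈ F) := by
    intro i; simp only [X, Finset.mem_filter, Finset.mem_range, Nat.lt_succ_iff]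
  let Y : Finset ℕ := (Finset.range (m + 1)).filter (fun i => i ∉ X)
  have hY : ∀ i, i ∈ Y ↔ i ≤ m ∧ i ∉ X := by
    intro i; simp only [Y, Finset.mem_filter, Finset.mem_range, Nat.lt_succ_iff]
  have hXY : X.card + Y.card = m + 1 := by
    have hXsub : X ⊆ Finset.range (m + 1) := Finset.filter_subset _ _
    have : Y = Finset.range (m + 1) \ X := by
      ext i
      simp only [hY, Finset.mem_sdiff, Finset.mem_range]
      constructor <;> rintro ⟨h1, h2⟩ <;> exact ⟨by omega, h2⟩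
    rw [this, Finset.card_sdiff_of_subset hXsub, Finset.card_range]
    have := Finset.card_le_card hXsub
    rw [Finset.card_range] at this
    omega
  let T1 : Finset (Finset Vx) :=
    (Finset.range (n + 2)).image (L n) ∪ (Finset.range (n + 1)).image (B n)
  let T2 : Finset (Finset Vx) :=
    X.image (A m) ∪ Y.image (B m) ∪ (Finset.range (m + 1)).image (C m) ∪ {L m 0, L m (m + 1)}
  let T := T1 ∪ T2
  have hT1 : T1.card ≤ 2 * n + 3 := by
    have h1 := Finset.card_union_le ((Finset.range (n + 2)).image (L n))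
      ((Finset.range (n + 1)).image (B n))
    have h2 : ((Finset.range (n + 2)).image (L n)).card ≤ n + 2 := by
      simpa using Finset.card_image_le (s := Finset.range (n + 2)) (f := L n)
    have h3 : ((Finset.range (n + 1)).image (B n)).card ≤ n + 1 := by
      simpa using Finset.card_image_le (s := Finset.range (n + 1)) (f := B n)
    show ((Finset.range (n + 2)).image (L n) ∪ (Finset.range (n + 1)).image (B n)).card ≤ _
    omega
  have hT2 : T2.card ≤ 2 * m + 4 := by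
    have h1 : (X.image (A m)).card ≤ X.card := Finset.card_image_le
    have h2 : (Y.image (B m)).card ≤ Y.card := Finset.card_image_le
    have h3 : ((Finset.range (m + 1)).image (C m)).card ≤ m + 1 := by
      simpa using Finset.card_image_le (s := Finset.range (m + 1)) (f := C m)
    have h4 : ({L m 0, L m (m + 1)} : Finset (Finset Vx)).card ≤ 2 := Finset.card_le_two
    have h5 := Finset.card_union_le (X.image (A m)) (Y.image (B m))
    have h6 := Finset.card_union_le (X.image (A m) ∪ Y.image (B m))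
      ((Finset.range (m + 1)).image (C m))
    have h7 := Finset.card_union_le
      (X.image (A m) ∪ Y.image (B m) ∪ (Finset.range (m + 1)).image (C m))
      ({L m 0, L m (m + 1)} : Finset (Finset Vx))
    show (X.image (A m) ∪ Y.image (B m) ∪ (Finset.range (m + 1)).image (C m) ∪
      {L m 0, L m (m + 1)}).card ≤ _
    omega
  have hTcard : T.card ≤ 2 * n + 3 + (2 * m + 4) := by
    have := Finset.card_union_le T1 T2
    show (T1 ∪ T2).card ≤ _
    omega
  have hmemT1 : ∀ e, e ∈ T1 ↔ (∃ i ≤ n + 1, e = L n i) ∨ (∃ i ≤ n, e = B n i) := by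
    intro e
    simp only [T1, Finset.mem_union, Finset.mem_image, Finset.mem_range]
    constructor
    · rintro (⟨i, hi, rfl⟩ | ⟨i, hi, rfl⟩)
      · exact Or.inl ⟨i, by omega, rfl⟩
      · exact Or.inr ⟨i, by omega, rfl⟩
    · rintro (⟨i, hi, rfl⟩ | ⟨i, hi, rfl⟩)
      · exact Or.inl ⟨i, by omega, rfl⟩
      · exact Or.inr ⟨i, by omega, rfl⟩
  have hmemT2 : ∀ e, e ∈ T2 ↔ (∃ i ∈ X, e = A m i) ∨ (∃ i, i ≤ m ∧ i ∉ X ∧ e = B m i) ∨
      (∃ i ≤ m, e = C m i) ∨ e = L m 0 ∨ e = L m (m + 1) := by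
    intro e
    simp only [T2, Finset.mem_union, Finset.mem_image, Finset.mem_range, Finset.mem_insert,
      Finset.mem_singleton, hY]
    constructor
    · rintro (((⟨i, hi, rfl⟩ | ⟨i, hi, rfl⟩) | ⟨i, hi, rfl⟩) | rfl | rfl)
      · exact Or.inl ⟨i, hi, rfl⟩
      · exact Or.inr (Or.inl ⟨i, hi.1, hi.2, rfl⟩)
      · exact Or.inr (Or.inr (Or.inl ⟨i, by omega, rfl⟩))
      · exact Or.inr (Or.inr (Or.inr (Or.inl rfl)))
      · exact Or.inr (Or.inr (Or.inr (Or.inr rfl)))
    · rintro (⟨i, hi, rfl⟩ | ⟨i, hi, hi', rfl⟩ | ⟨i, hi, rfl⟩ | rfl | rfl)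
      · exact Or.inl (Or.inl (Or.inl ⟨i, hi, rfl⟩))
      · exact Or.inl (Or.inl (Or.inr ⟨i, ⟨hi, hi'⟩, rfl⟩))
      · exact Or.inl (Or.inr ⟨i, by omega, rfl⟩)
      · exact Or.inr (Or.inl rfl)
      · exact Or.inr (Or.inr rfl)
  let GG : Finset (Finset Vx) := G n ∪ G m
  have hTG : T ⊆ GG := by
    intro e he
    rw [Finset.mem_union] at he
    rw [Finset.mem_union, mem_G, mem_G]
    rcases he with he | he
    · rcases (hmemT1 e).1 he with ⟨i, hi, rfl⟩ | ⟨i, hi, rfl⟩
      · exact Or.inl (Or.inr (Or.inr (Or.inr ⟨i, hi, rfl⟩)))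
      · exact Or.inl (Or.inr (Or.inl ⟨i, hi, rfl⟩))
    · rcases (hmemT2 e).1 he with ⟨i, hi, rfl⟩ | ⟨i, hi, hi', rfl⟩ | ⟨i, hi, rfl⟩ | rfl | rfl
      · exact Or.inr (Or.inl ⟨i, ((hX i).1 hi).1, rfl⟩)
      · exact Or.inr (Or.inr (Or.inl ⟨i, hi, rfl⟩))
      · exact Or.inr (Or.inr (Or.inr (Or.inl ⟨i, hi, rfl⟩)))
      · exact Or.inr (Or.inr (Or.inr (Or.inr ⟨0, by omega, rfl⟩)))
      · exact Or.inr (Or.inr (Or.inr (Or.inr ⟨m + 1, by omega, rfl⟩)))
  let P : Finset (Finset Vx) := GG.filter (fun e => e ∈ F)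
  have hP : ∀ a, a ∈ P ↔ a ∈ F ∧ a ∈ GG := by
    intro a; simp only [P, Finset.mem_filter]; tauto
  let Pn : Finset (Finset Vx) := (G n).filter (fun e => e ∈ F)
  let Pm : Finset (Finset Vx) := (G m).filter (fun e => e ∈ F)
  have hPn : 2 * n + 4 ≤ Pn.card := cost_active hF hcov hj hA Pn
    (by intro e; simp only [Pn, Finset.mem_filter]; tauto)
  have hPm : 2 * m + 4 ≤ Pm.card := cost_active hF hcov hj' hA' Pm
    (by intro e; simp only [Pm, Finset.mem_filter]; tauto)
  have hPcard : Pn.card + Pm.card ≤ P.card := by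
    have hd : Disjoint Pn Pm := by
      rw [Finset.disjoint_left]
      intro e he he'
      exact G_disj (ne_of_lt hnm) (Finset.mem_filter.1 he).1 (Finset.mem_filter.1 he').1
    rw [← Finset.card_union_of_disjoint hd]
    apply Finset.card_le_card
    intro e he
    rw [Finset.mem_union] at he
    rw [hP, Finset.mem_union]
    rcases he with he | he
    · exact ⟨(Finset.mem_filter.1 he).2, Or.inl (Finset.mem_filter.1 he).1⟩
    · exact ⟨(Finset.mem_filter.1 he).2, Or.inr (Finset.mem_filter.1 he).1⟩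
  refine ⟨(F \ (GG : Set (Finset Vx))) ∪ (T : Set (Finset Vx)), ?_, ?_, swap F GG T P hTG hP
    (by omega)⟩
  · rintro e (he | he)
    · exact hF he.1
    · have := hTG he
      rw [Finset.mem_union] at this
      rcases this with h | h
      · exact Or.inl ⟨n, h⟩
      · exact Or.inl ⟨m, h⟩
  · intro v
    obtain ⟨e, heF, hve⟩ := hcov v
    by_cases heG : e ∈ GG
    · -- `v` is a vertex of gadget `n` or `m`, or an element
      have hval : Valid v := by
        rw [Finset.mem_union] at heG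
        rcases heG with h | h
        · exact valid_of_mem_G h hve
        · exact valid_of_mem_G h hve
      have hin1 : ∀ e' ∈ T1, v ∈ e' → ∃ e ∈ (F \ (GG : Set (Finset Vx))) ∪ (T : Set (Finset Vx)), v ∈ e :=
        fun e' he' hv' => ⟨e', Or.inr (Finset.mem_coe.2 (Finset.mem_union_left _ he')), hv'⟩
      have hin2 : ∀ e' ∈ T2, v ∈ e' → ∃ e ∈ (F \ (GG : Set (Finset Vx))) ∪ (T : Set (Finset Vx)), v ∈ e :=
        fun e' he' hv' => ⟨e', Or.inr (Finset.mem_coe.2 (Finset.mem_union_right _ he')), hv'⟩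
      have hgad : gad v = none ∨ gad v = some n ∨ gad v = some m := by
        rw [Finset.mem_union] at heG
        rcases heG with h | h
        · rcases gad_of_mem h hve with h' | h'
          · exact Or.inl h'
          · exact Or.inr (Or.inl h')
        · rcases gad_of_mem h hve with h' | h'
          · exact Or.inl h'
          · exact Or.inr (Or.inr h')
      cases v with
      | x i =>
        -- the element was covered by gadget `n` or `m`
        have hi : i ∈ X := by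
          rw [Finset.mem_union, mem_G, mem_G] at heG
          rw [hX]
          rcases heG with (⟨k, hk, rfl⟩ | ⟨k, hk, rfl⟩ | ⟨k, hk, rfl⟩ | ⟨k, hk, rfl⟩) |
            (⟨k, hk, rfl⟩ | ⟨k, hk, rfl⟩ | ⟨k, hk, rfl⟩ | ⟨k, hk, rfl⟩)
          · simp [A] at hve; subst hve; exact ⟨by omega, Or.inl ⟨hk, heF⟩⟩
          · simp [B] at hve
          · simp [C] at hve
          · simp [L] at hve
          · simp [A] at hve; subst hve; exact ⟨by omega, Or.inr heF⟩
          · simp [B] at hve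
          · simp [C] at hve
          · simp [L] at hve
        exact hin2 (A m i) ((hmemT2 _).2 (Or.inl ⟨i, hi, rfl⟩)) (by simp [A])
      | t k i =>
        have hk : k = n ∨ k = m := by simpa [gad] using hgad
        have hi : i ≤ k := hval
        rcases hk with rfl | rfl
        · exact hin1 (B k i) ((hmemT1 _).2 (Or.inr ⟨i, hi, rfl⟩)) (by simp [B])
        · by_cases hiX : i ∈ X
          · exact hin2 (A k i) ((hmemT2 _).2 (Or.inl ⟨i, hiX, rfl⟩)) (by simp [A])
          · exact hin2 (B k i) ((hmemT2 _).2 (Or.inr (Or.inl ⟨i, hi, hiX, rfl⟩))) (by simp [B])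
      | b k i =>
        have hk : k = n ∨ k = m := by simpa [gad] using hgad
        have hi : i ≤ k := hval
        rcases hk with rfl | rfl
        · exact hin1 (B k i) ((hmemT1 _).2 (Or.inr ⟨i, hi, rfl⟩)) (by simp [B])
        · exact hin2 (C k i) ((hmemT2 _).2 (Or.inr (Or.inr (Or.inl ⟨i, hi, rfl⟩)))) (by simp [C])
      | l k i =>
        have hk : k = n ∨ k = m := by simpa [gad] using hgad
        have hi : i ≤ k + 1 := hval
        rcases hk with rfl | rfl
        · exact hin1 (L k i) ((hmemT1 _).2 (Or.inl ⟨i, hi, rfl⟩)) (by simp [L])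
        · rcases Nat.eq_zero_or_pos i with rfl | hpos
          · exact hin2 (L k 0) ((hmemT2 _).2 (Or.inr (Or.inr (Or.inr (Or.inl rfl))))) (by simp [L])
          · obtain ⟨i', rfl⟩ : ∃ i', i = i' + 1 := ⟨i - 1, by omega⟩
            exact hin2 (C k i') ((hmemT2 _).2 (Or.inr (Or.inr (Or.inl ⟨i', by omega, rfl⟩))))
              (by simp [C])
      | r k i =>
        have hk : k = n ∨ k = m := by simpa [gad] using hgad
        have hi : i ≤ k + 1 := hval
        rcases hk with rfl | rfl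
        · exact hin1 (L k i) ((hmemT1 _).2 (Or.inl ⟨i, hi, rfl⟩)) (by simp [L])
        · rcases Nat.lt_or_ge k i with hlt | hge
          · have : i = k + 1 := by omega
            subst this
            exact hin2 (L k (k + 1)) ((hmemT2 _).2 (Or.inr (Or.inr (Or.inr (Or.inr rfl)))))
              (by simp [L])
          · exact hin2 (C k i) ((hmemT2 _).2 (Or.inr (Or.inr (Or.inl ⟨i, hge, rfl⟩))))
              (by simp [C])
    · exact ⟨e, Or.inl ⟨heF, heG⟩, hve⟩

theorem no_smc (F : Set (Finset Vx)) (hF : F ⊆ E) (hcov : Cov F) :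
    ∃ F' : Set (Finset Vx), F' ⊆ E ∧ Cov F' ∧
      Cardinal.mk ↥(F' \ F) < Cardinal.mk ↥(F \ F') := by
  have key : ∀ i, ∃ n, i ≤ n ∧ A n i ∈ F := by
    intro i
    obtain ⟨e, he, hv⟩ := hcov (x i)
    rcases hF he with ⟨n, hn⟩ | ⟨v, hv', rfl⟩
    · rw [mem_G] at hn
      rcases hn with ⟨k, hk, rfl⟩ | ⟨k, hk, rfl⟩ | ⟨k, hk, rfl⟩ | ⟨k, hk, rfl⟩
      · simp [A] at hv; subst hv; exact ⟨n, hk, he⟩
      · simp [B] at hv
      · simp [C] at hv
      · simp [L] at hv
    · rw [Finset.mem_singleton] at hv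
      subst hv
      exact absurd trivial hv'
  obtain ⟨n, hn, hAn⟩ := key 0
  obtain ⟨m, hm, hAm⟩ := key (n + 1)
  obtain ⟨F', h1, h2, h3⟩ := merge F hF hcov n m 0 (n + 1) (by omega) hn hm hAn hAm
  exact ⟨F', h1, h2, h3⟩

end Pool.Agent.Y767.SM
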